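import Pool.Agent.Helper14.AY.GoalsB

/-! # AY DQN: derivatives of solutions of the Monge-Ampère equation -/

open Complex Metric Set Filter Topology MeasureTheory
open scoped ContDiff ComplexConjugate ComplexOrder Manifold Matrix

namespace Pool.Agent.Helper97.AY

open Pool.Agent.Helper95.Lin Pool.Agent.Helper16.Abund Pool.Agent.Helper92.Orb Pool.Agent.Helper10.SP
  Pool.Agent.Helper95.RK Pool.Agent.Helper57.HS Pool.Agent.Helper14.AY

section calc1

variable {n : ℕ} {E : Type} [NormedAddCommGroup E] {a K K' : ℝ} {S S' : Set (Cn n)} {f g : Cn n → E}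

theorem hb_mono (h : HB a S K f) (hS : S' ⊆ S) (hK : K ≤ K') : HB a S' K' f := fun x hx y hy =>
  (h x (hS hx) y (hS hy)).trans
    (mul_le_mul_of_nonneg_right hK (Real.rpow_nonneg (norm_nonneg _) _))

theorem cb_mono (h : CB a S K f) (hS : S' ⊆ S) (hK : K ≤ K') : CB a S' K' f :=
  ⟨fun x hx => (h.1 x (hS hx)).trans hK, hb_mono h.2 hS hK⟩

theorem cb_add (h1 : CB a S K f) (h2 : CB a S K' g) : CB a S (K + K') fun x => f x + g x := by
  refine ⟨fun x hx => (norm_add_le _ _).trans (add_le_add (h1.1 x hx) (h2.1 x hx)),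
    fun x hx y hy => ?_⟩
  have e : f x + g x - (f y + g y) = (f x - f y) + (g x - g y) := by abel
  rw [e, add_mul]
  exact (norm_add_le _ _).trans (add_le_add (h1.2 x hx y hy) (h2.2 x hx y hy))

theorem cb_sub (h1 : CB a S K f) (h2 : CB a S K' g) : CB a S (K + K') fun x => f x - g x := by
  refine ⟨fun x hx => (norm_sub_le _ _).trans (add_le_add (h1.1 x hx) (h2.1 x hx)),
    fun x hx y hy => ?_⟩
  have e : f x - g x - (f y - g y) = (f x - f y) - (g x - g y) := by abel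
  rw [e, add_mul]
  exact (norm_sub_le _ _).trans (add_le_add (h1.2 x hx y hy) (h2.2 x hx y hy))

theorem cb_mul {f g : Cn n → ℂ} (hK : 0 ≤ K) (hK' : 0 ≤ K') (h1 : CB a S K f)
    (h2 : CB a S K' g) : CB a S (2 * K * K') fun x => f x * g x := by
  refine ⟨fun x hx => ?_, fun x hx y hy => ?_⟩
  · rw [norm_mul]
    have h3 := mul_le_mul (h1.1 x hx) (h2.1 x hx) (norm_nonneg _) hK
    have h4 : 0 ≤ K * K' := mul_nonneg hK hK'
    linarith
  · have e : f x * g x - f y * g y = f x * (g x - g y) + (f x - f y) * g y := by ring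
    rw [e]
    set d := ‖x - y‖ ^ a with hd
    have hd0 : 0 ≤ d := Real.rpow_nonneg (norm_nonneg _) _
    refine (norm_add_le _ _).trans ?_
    rw [norm_mul, norm_mul]
    have h3 : ‖f x‖ * ‖g x - g y‖ ≤ K * (K' * d) :=
      mul_le_mul (h1.1 x hx) (h2.2 x hx y hy) (norm_nonneg _) hK
    have h4 : ‖f x - f y‖ * ‖g y‖ ≤ K * d * K' :=
      mul_le_mul (h1.2 x hx y hy) (h2.1 y hy) (norm_nonneg _) (mul_nonneg hK hd0)
    linarith

theorem cb_sum {ι : Type*} (s : Finset ι) (f : ι → Cn n → ℂ) (K : ι → ℝ)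
    (h : ∀ i ∈ s, CB a S (K i) (f i)) : CB a S (∑ i ∈ s, K i) fun x => ∑ i ∈ s, f i x := by
  classical
  induction s using Finset.induction_on with
  | empty =>
    refine ⟨fun x _ => by simp, fun x _ y _ => by simp⟩
  | insert i s hi ih =>
    simp only [Finset.sum_insert hi]
    exact cb_add (h i (Finset.mem_insert_self i s))
      (ih fun j hj => h j (Finset.mem_insert_of_mem hj))

theorem cb_ofReal {f : Cn n → ℝ} (h : CB a S K f) : CB a S K fun x => (f x : ℂ) := by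
  refine ⟨fun x hx => by simpa using h.1 x hx, fun x hx y hy => ?_⟩
  rw [← Complex.ofReal_sub, Complex.norm_real]
  exact h.2 x hx y hy

/-- `CB` near a point. -/
def Nr (a : ℝ) (x₀ : Cn n) (K : ℝ) (f : Cn n → E) : Prop :=
  ∀ᶠ s in 𝓝[>] (0 : ℝ), CB a (ball x₀ s) K f

theorem nr_of {x₀ : Cn n} {r : ℝ} (hr : 0 < r) (h : CB a (ball x₀ r) K f) : Nr a x₀ K f := by
  filter_upwards [Ioc_mem_nhdsGT hr] with s hs
  exact cb_mono h (ball_subset_ball hs.2) le_rfl

theorem nr_of_lh {W : Set (Cn n)} (ha : 0 < a) (h : LH a W f) {x₀ : Cn n} (hx : x₀ ∈ W) :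
    ∃ K, 0 ≤ K ∧ Nr a x₀ K f := by
  obtain ⟨U, hU, K, hK⟩ := h x₀ hx
  obtain ⟨r, hr, hrU⟩ := Metric.mem_nhds_iff.1 hU
  refine ⟨‖f x₀‖ + |K|, by positivity, nr_of (r := min r 1) (lt_min hr one_pos) ⟨?_, ?_⟩⟩
  · intro x hx
    have h1 : x ∈ U := hrU (ball_subset_ball (min_le_left _ _) hx)
    have h2 : x₀ ∈ U := hrU (mem_ball_self hr)
    have h3 : ‖x - x₀‖ ≤ 1 := by
      have := (mem_ball.1 hx).le.trans (min_le_right _ _)
      rwa [dist_eq_norm] at this
    have h4 : ‖x - x₀‖ ^ a ≤ 1 := Real.rpow_le_one (norm_nonneg _) h3 ha.le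
    have h5 : ‖f x - f x₀‖ ≤ |K| := by
      refine (hK x h1 x₀ h2).trans ?_
      calc K * ‖x - x₀‖ ^ a ≤ |K| * ‖x - x₀‖ ^ a :=
            mul_le_mul_of_nonneg_right (le_abs_self _) (Real.rpow_nonneg (norm_nonneg _) _)
        _ ≤ |K| * 1 := mul_le_mul_of_nonneg_left h4 (abs_nonneg _)
        _ = |K| := mul_one _
    calc ‖f x‖ = ‖f x₀ + (f x - f x₀)‖ := by congr 1; abel
      _ ≤ ‖f x₀‖ + ‖f x - f x₀‖ := norm_add_le _ _
      _ ≤ _ := by linarith
  · refine hb_mono hK ((ball_subset_ball (min_le_left _ _)).trans hrU) ?_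
    exact (le_abs_self K).trans (le_add_of_nonneg_left (norm_nonneg _))

theorem lh_cont {W : Set (Cn n)} (ha : 0 < a) (h : LH a W f) : ContinuousOn f W := by
  intro x hx
  refine ContinuousAt.continuousWithinAt ?_
  obtain ⟨U, hU, K, hK⟩ := h x hx
  rw [ContinuousAt, tendsto_iff_norm_sub_tendsto_zero]
  have h1 : Tendsto (fun y => K * ‖y - x‖ ^ a) (𝓝 x) (𝓝 0) := by
    have h2 : Continuous fun y : Cn n => K * ‖y - x‖ ^ a :=
      continuous_const.mul ((continuous_id.sub continuous_const).norm.rpow_const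
        fun _ => Or.inr ha.le)
    have h3 := h2.tendsto x
    simp only [sub_self, norm_zero, Real.zero_rpow ha.ne', mul_zero] at h3
    exact h3
  refine squeeze_zero' (Eventually.of_forall fun y => norm_nonneg _) ?_ h1
  filter_upwards [hU] with y hy
  exact hK y hy x (mem_of_mem_nhds hU)

variable [NormedSpace ℝ E]

theorem nr_of_c1 (ha : 0 < a) (ha1 : a ≤ 1) {x₀ : Cn n} (h : ContDiffAt ℝ 1 f x₀) :
    ∃ K, 0 ≤ K ∧ Nr a x₀ K f := by
  obtain ⟨K, t, ht, hK⟩ := h.exists_lipschitzOnWith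
  have hlh : LH a {x₀} f := by
    intro x hx
    rw [mem_singleton_iff] at hx
    subst hx
    obtain ⟨r, hr, hrt⟩ := Metric.mem_nhds_iff.1 ht
    refine ⟨ball x (min r (1 / 2)), ball_mem_nhds _ (lt_min hr (by norm_num)), K, ?_⟩
    intro y hy z hz
    have h1 := hK.norm_sub_le (hrt (ball_subset_ball (min_le_left _ _) hy))
      (hrt (ball_subset_ball (min_le_left _ _) hz))
    have h2 : ‖y - z‖ ≤ 1 := by
      have h3 := (mem_ball.1 hy).trans_le (min_le_right _ _)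
      have h4 := (mem_ball.1 hz).trans_le (min_le_right _ _)
      have h5 := dist_triangle_right y z x
      rw [← dist_eq_norm]
      linarith
    refine h1.trans (mul_le_mul_of_nonneg_left ?_ K.coe_nonneg)
    have h6 := Real.rpow_le_rpow_of_exponent_ge' (norm_nonneg (y - z)) h2 ha.le ha1
    rwa [Real.rpow_one] at h6
  exact nr_of_lh ha hlh (mem_singleton x₀)

theorem hk_local {W : Set (Cn n)} (k : ℕ) : ∀ f : Cn n → E,
    (∀ x ∈ W, ∃ r > 0, Hk a (ball x r) k f) → Hk a W k f := by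
  induction k with
  | zero =>
    intro f h x hx
    obtain ⟨r, hr, h1⟩ := h x hx
    exact h1 x (mem_ball_self hr)
  | succ k ih =>
    intro f h
    refine ⟨fun x hx => ?_, fun v => ih _ fun x hx => ?_⟩
    · obtain ⟨r, hr, h1⟩ := h x hx
      exact (h1.1.contDiffAt (ball_mem_nhds x hr)).contDiffWithinAt
    · obtain ⟨r, hr, h1⟩ := h x hx
      exact ⟨r, hr, h1.2 v⟩

theorem dq_smul (e : Cn n) {h : ℝ} (hh : h ≠ 0) (f : Cn n → E) (x : Cn n) :
    h • dq e h f x = f (x + h • e) - f x := by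
  unfold dq
  rw [smul_smul, mul_inv_cancel₀ hh, one_smul]

end calc1

/-- The statement for `∂_e u` near a point. -/
theorem loc (hdqg : S_DQG) (hdqb : S_DQB) (hdqm : S_DQM) (helc : S_ELC) (hhca : S_HCA)
    (hhcb : S_HCB) (hlgd : S_LGD) {n : ℕ} {a : ℝ} {W : Set (Cn n)}
    {X : Cn n → Matrix (Fin n) (Fin n) ℂ} {g u : Cn n → ℝ} (ha : 0 < a) (ha1 : a < 1)
    (hW : IsOpen W) (sX : ∀ i j, ContDiffOn ℝ ∞ (fun x => X x i j) W)
    (sg : ContDiffOn ℝ ∞ g W) (su : Hk a W 2 u) (hpd : ∀ x ∈ W, (X x + LM u x).PosDef)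
    (heq : ∀ x ∈ W, Real.log (X x + LM u x).det.re = u x + g x) (e : Cn n) {x₀ : Cn n}
    (hx₀ : x₀ ∈ W) : ∃ r > 0, Hk a (ball x₀ r) 2 fun x => fderiv ℝ u x e := by
  classical
  obtain ⟨hA1, hA2, hA3, hA4, -⟩ := hhca a W ha ha1.le hW
  obtain ⟨hB1, hB2, -⟩ := hhcb a W ha ha1.le hW
  have c2u : ContDiffOn ℝ 2 u W := ((hB1 u).1 su).1
  have hLM : ∀ i j, LH a W fun x => LM u x i j := fun i j => (hB2 u 0 su).2 i j
  set Q : Cn n → Matrix (Fin n) (Fin n) ℂ := fun x => X x + LM u x with hQ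
  have hQlh : ∀ i j, LH a W fun x => Q x i j := by
    intro i j
    have h1 : Hk a W 0 (fun x => X x i j) := hA1 ℂ _ (sX i j) 0
    exact hA4 ℂ _ _ 0 h1 (hLM i j)
  obtain ⟨rE, hrE, lam, hlam, hEW, hEll⟩ := helc W Q hW hpd
    (fun i j => lh_cont ha (hQlh i j)) x₀ hx₀
  -- the constants
  have kQ : ∀ i j, ∃ K, 0 ≤ K ∧ Nr a x₀ K fun x => Q x i j := fun i j =>
    nr_of_lh ha (hQlh i j) hx₀
  choose KQ KQ0 hKQ using kQ
  have kX : ∀ i j, ∃ K, 0 ≤ K ∧ Nr a x₀ K (fderiv ℝ fun x => X x i j) := fun i j => by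
    refine nr_of_c1 ha ha1.le ?_
    have h1 : ContDiffAt ℝ ∞ (fun x => X x i j) x₀ := (sX i j).contDiffAt (hW.mem_nhds hx₀)
    exact h1.fderiv_right (m := 1) (by norm_cast)
  choose KX KX0 hKX using kX
  obtain ⟨Ku, Ku0, hKu⟩ : ∃ K, 0 ≤ K ∧ Nr a x₀ K (fderiv ℝ u) := by
    refine nr_of_c1 ha ha1.le ?_
    have h1 : ContDiffAt ℝ 2 u x₀ := c2u.contDiffAt (hW.mem_nhds hx₀)
    exact h1.fderiv_right (m := 1) (by norm_num)
  obtain ⟨Kg, Kg0, hKg⟩ : ∃ K, 0 ≤ K ∧ Nr a x₀ K (fderiv ℝ g) := by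
    refine nr_of_c1 ha ha1.le ?_
    have h1 : ContDiffAt ℝ ∞ g x₀ := sg.contDiffAt (hW.mem_nhds hx₀)
    exact h1.fderiv_right (m := 1) (by norm_cast)
  -- the radius
  have hev : ∀ᶠ s in 𝓝[>] (0 : ℝ), (0 < s ∧ s ≤ rE) ∧ (∀ i j, CB a (ball x₀ s) (KQ i j)
      fun x => Q x i j) ∧ (∀ i j, CB a (ball x₀ s) (KX i j) (fderiv ℝ fun x => X x i j)) ∧
      CB a (ball x₀ s) Ku (fderiv ℝ u) ∧ CB a (ball x₀ s) Kg (fderiv ℝ g) := by
    have h1 : ∀ᶠ s in 𝓝[>] (0 : ℝ), ∀ i j, CB a (ball x₀ s) (KQ i j) fun x => Q x i j :=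
      eventually_all.2 fun i => eventually_all.2 fun j => hKQ i j
    have h2 : ∀ᶠ s in 𝓝[>] (0 : ℝ), ∀ i j, CB a (ball x₀ s) (KX i j)
        (fderiv ℝ fun x => X x i j) :=
      eventually_all.2 fun i => eventually_all.2 fun j => hKX i j
    filter_upwards [Ioc_mem_nhdsGT hrE, h1, h2, hKu, hKg] with s a1 a2 a3 a4 a5
    exact ⟨a1, a2, a3, a4, a5⟩
  obtain ⟨r₀, ⟨hr₀, hr₀E⟩, bQ, bX, bu, bg⟩ := hev.exists
  have hsub : ball x₀ r₀ ⊆ closedBall x₀ rE := ball_subset_closedBall.trans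
    (closedBall_subset_closedBall hr₀E)
  have hsubW : ball x₀ r₀ ⊆ W := hsub.trans hEW
  have h2r : ball x₀ (2 * (r₀ / 2)) = ball x₀ r₀ := by
    congr 1
    ring
  obtain ⟨C₀, Bf, hBf⟩ := hlgd n lam hlam
  set D : ℝ := |C₀| + |C₀| * ∑ p, ∑ q, (KQ p q + KQ p q) with hD
  have hsum0 : 0 ≤ ∑ p, ∑ q, (KQ p q + KQ p q) :=
    Finset.sum_nonneg fun p _ => Finset.sum_nonneg fun q _ => add_nonneg (KQ0 p q) (KQ0 p q)
  have hD0 : 0 ≤ D := by positivity
  set M : ℝ := (Ku * ‖e‖ + Kg * ‖e‖) + ∑ i, ∑ j, 2 * D * (KX j i * ‖e‖) with hM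
  have hM0 : 0 ≤ M := by
    have h1 : 0 ≤ ∑ i, ∑ j, 2 * D * (KX j i * ‖e‖) :=
      Finset.sum_nonneg fun i _ => Finset.sum_nonneg fun j _ =>
        mul_nonneg (by positivity) (mul_nonneg (KX0 j i) (norm_nonneg _))
    positivity
  refine hdqg a lam (D + M) r₀ x₀ e u ha ha1 hlam hr₀ (hA3 ℝ u 2 _ isOpen_ball hsubW su) ?_
  have htend : Tendsto (fun m : ℕ => 1 / ((m : ℝ) + 1) * ‖e‖) atTop (𝓝 0) := by
    have h1 := (tendsto_one_div_add_atTop_nhds_zero_nat (𝕜 := ℝ)).mul_const ‖e‖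
    rwa [zero_mul] at h1
  filter_upwards [htend.eventually (gt_mem_nhds (half_pos hr₀))] with m hm
  set h : ℝ := 1 / ((m : ℝ) + 1) with hh
  have hh0 : 0 < h := by positivity
  have htr : ∀ x ∈ ball x₀ (r₀ / 2), x + h • e ∈ ball x₀ r₀ := by
    intro x hx
    rw [mem_ball, dist_eq_norm] at hx ⊢
    have h1 : x + h • e - x₀ = (x - x₀) + h • e := by abel
    rw [h1]
    refine (norm_add_le _ _).trans_lt ?_
    rw [norm_smul, Real.norm_of_nonneg hh0.le]
    linarith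
  have hbb : ball x₀ (r₀ / 2) ⊆ ball x₀ r₀ := ball_subset_ball (by linarith)
  set B : Cn n → Matrix (Fin n) (Fin n) ℂ := fun x => Bf (Q x) (Q (x + h • e)) with hB
  have hBx := fun x (hx : x ∈ ball x₀ (r₀ / 2)) => hBf (Q x) (Q (x + h • e))
    (hEll x (hsub (hbb hx))).1 (hEll x (hsub (hbb hx))).2
    (hEll _ (hsub (htr x hx))).1 (hEll _ (hsub (htr x hx))).2
  -- bounds
  have bB : ∀ i j, CB a (ball x₀ (r₀ / 2)) D fun x => B x i j := by
    intro i j
    refine ⟨fun x hx => ?_, fun x hx y hy => ?_⟩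
    · refine ((hBx x hx).2.2.1 i j).trans ((le_abs_self _).trans ?_)
      rw [hD]
      exact le_add_of_nonneg_right (by positivity)
    · have h1 := (hBx x hx).2.2.2 (Q y) (Q (y + h • e)) (hEll y (hsub (hbb hy))).1
        (hEll y (hsub (hbb hy))).2 (hEll _ (hsub (htr y hy))).1 (hEll _ (hsub (htr y hy))).2 i j
      refine h1.trans ?_
      set d := ‖x - y‖ ^ a with hd
      have hd0 : 0 ≤ d := Real.rpow_nonneg (norm_nonneg _) _
      have h2 : ∑ p, ∑ q, (‖Q x p q - Q y p q‖ + ‖Q (x + h • e) p q - Q (y + h • e) p q‖) ≤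
          ∑ p, ∑ q, (KQ p q + KQ p q) * d := by
        refine Finset.sum_le_sum fun p _ => Finset.sum_le_sum fun q _ => ?_
        have h3 := (bQ p q).2 x (hbb hx) y (hbb hy)
        have h4 := (bQ p q).2 _ (htr x hx) _ (htr y hy)
        have h5 : x + h • e - (y + h • e) = x - y := by abel
        rw [h5] at h4
        rw [add_mul]
        exact add_le_add h3 h4
      have h6 : ∑ p, ∑ q, (KQ p q + KQ p q) * d = (∑ p, ∑ q, (KQ p q + KQ p q)) * d := by
        rw [Finset.sum_mul]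
        refine Finset.sum_congr rfl fun p _ => ?_
        rw [Finset.sum_mul]
      rw [h6] at h2
      have h7 : 0 ≤ ∑ p, ∑ q, (‖Q x p q - Q y p q‖ +
          ‖Q (x + h • e) p q - Q (y + h • e) p q‖) :=
        Finset.sum_nonneg fun p _ => Finset.sum_nonneg fun q _ =>
          add_nonneg (norm_nonneg _) (norm_nonneg _)
      calc C₀ * ∑ p, ∑ q, (‖Q x p q - Q y p q‖ + ‖Q (x + h • e) p q - Q (y + h • e) p q‖) ≤
          |C₀| * ∑ p, ∑ q, (‖Q x p q - Q y p q‖ +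
            ‖Q (x + h • e) p q - Q (y + h • e) p q‖) :=
            mul_le_mul_of_nonneg_right (le_abs_self _) h7
        _ ≤ |C₀| * ((∑ p, ∑ q, (KQ p q + KQ p q)) * d) :=
            mul_le_mul_of_nonneg_left h2 (abs_nonneg _)
        _ ≤ D * d := by
            rw [hD, add_mul, ← mul_assoc]
            exact le_add_of_nonneg_left (mul_nonneg (abs_nonneg _) hd0)
  have bdu : CB a (ball x₀ (r₀ / 2)) (Ku * ‖e‖) (dq e h u) := by
    refine (hdqb ℝ a Ku h (r₀ / 2) x₀ e u ha ha1.le Ku0 hh0 hm ?_ ?_).2.1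
    · rw [h2r]
      exact (c2u.mono hsubW).of_le (by norm_num)
    · rw [h2r]
      exact bu
  have bdg : CB a (ball x₀ (r₀ / 2)) (Kg * ‖e‖) (dq e h g) := by
    refine (hdqb ℝ a Kg h (r₀ / 2) x₀ e g ha ha1.le Kg0 hh0 hm ?_ ?_).2.1
    · rw [h2r]
      exact (sg.mono hsubW).of_le (by norm_cast)
    · rw [h2r]
      exact bg
  have bdX : ∀ i j, CB a (ball x₀ (r₀ / 2)) (KX i j * ‖e‖) (dq e h fun x => X x i j) := by
    intro i j
    refine (hdqb ℂ a (KX i j) h (r₀ / 2) x₀ e _ ha ha1.le (KX0 i j) hh0 hm ?_ ?_).2.1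
    · rw [h2r]
      exact ((sX i j).mono hsubW).of_le (by norm_cast)
    · rw [h2r]
      exact bX i j
  set F : Cn n → ℂ := fun x => ((dq e h u x + dq e h g x : ℝ) : ℂ) -
    ∑ i, ∑ j, B x i j * dq e h (fun y => X y j i) x with hF
  have bF : CB a (ball x₀ (r₀ / 2)) M F := by
    refine cb_sub (cb_ofReal (cb_add bdu bdg)) ?_
    refine cb_sum _ _ _ fun i _ => cb_sum _ _ _ fun j _ => ?_
    exact cb_mul hD0 (mul_nonneg (KX0 j i) (norm_nonneg _)) (bB i j) (bdX j i)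
  refine ⟨B, F, fun x hx => (hBx x hx).1, fun i j => cb_mono (bB i j) le_rfl (by linarith),
    cb_mono bF le_rfl (by linarith), fun x hx => ?_⟩
  -- the equation
  have hxW : x ∈ W := hsubW (hbb hx)
  have hxW' : x + h • e ∈ W := hsubW (htr x hx)
  have e1 := (hBx x hx).2.1
  rw [heq _ hxW', heq _ hxW] at e1
  have e2 : ((u (x + h • e) + g (x + h • e) - (u x + g x) : ℝ) : ℂ) =
      (h : ℂ) * ((dq e h u x + dq e h g x : ℝ) : ℂ) := by
    have e3 := dq_smul e hh0.ne' u x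
    have e4 := dq_smul e hh0.ne' g x
    rw [smul_eq_mul] at e3 e4
    have e5 : u (x + h • e) + g (x + h • e) - (u x + g x) = h * (dq e h u x + dq e h g x) := by
      rw [mul_add, e3, e4]
      ring
    rw [e5]
    push_cast
    ring
  rw [e2] at e1
  have e6 : Matrix.trace (Bf (Q x) (Q (x + h • e)) * (Q (x + h • e) - Q x)) =
      (h : ℂ) * ∑ i, ∑ j, B x i j * (dq e h (fun y => X y j i) x + LM (dq e h u) x j i) := by
    simp only [Matrix.trace, Matrix.diag_apply, Matrix.mul_apply]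
    rw [Finset.mul_sum]
    refine Finset.sum_congr rfl fun i _ => ?_
    rw [Finset.mul_sum]
    refine Finset.sum_congr rfl fun j _ => ?_
    have e7 := (hdqm W u hW c2u e h x hxW hxW').2.2 j i
    have e8 := dq_smul e hh0.ne' (fun y => X y j i) x
    have e9 := dq_smul e hh0.ne' (fun y => LM u y j i) x
    rw [Complex.real_smul] at e8 e9
    have e10 : (Q (x + h • e) - Q x) j i = (h : ℂ) * (dq e h (fun y => X y j i) x +
        LM (dq e h u) x j i) := by
      rw [e7, mul_add, e8, e9]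
      simp only [hQ, Matrix.sub_apply, Matrix.add_apply]
      ring
    rw [e10]
    simp only [hB]
    ring
  rw [e6] at e1
  have hhc : (h : ℂ) ≠ 0 := by exact_mod_cast hh0.ne'
  have e11 := mul_left_cancel₀ hhc e1
  have e12 : Matrix.trace (B x * LM (dq e h u) x) = ∑ i, ∑ j, B x i j * LM (dq e h u) x j i := by
    simp only [Matrix.trace, Matrix.diag_apply, Matrix.mul_apply]
  rw [e12, hF]
  simp only []
  rw [e11, ← Finset.sum_sub_distrib]
  refine Finset.sum_congr rfl fun i _ => ?_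
  rw [← Finset.sum_sub_distrib]
  refine Finset.sum_congr rfl fun j _ => ?_
  ring

/-- Packet DQN. -/
theorem dqn (hdqg : S_DQG) (hdqb : S_DQB) (hdqm : S_DQM) (helc : S_ELC) (hhca : S_HCA)
    (hhcb : S_HCB) (hdlm : S_DLM) (hlgd : S_LGD) (hlgj : S_LGJ) : S_DQN := by
  classical
  intro n a W X g u ha ha1 hW sX hX sg su hpd heq e
  have h1 : ∀ e : Cn n, Hk a W 2 fun x => fderiv ℝ u x e := fun e =>
    hk_local 2 _ fun x hx => loc hdqg hdqb hdqm helc hhca hhcb hlgd ha ha1 hW sX sg su hpd heq e hx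
  refine ⟨h1 e, fun x hx => ?_⟩
  obtain ⟨-, hB2, -⟩ := hhcb a W ha ha1.le hW
  have h3 : Hk a W 3 u := ⟨su.1, h1⟩
  obtain ⟨c2u, hLM⟩ := hB2 u 1 h3
  have cX : ∀ i j, ContDiffOn ℝ 1 (fun x => X x i j) W := fun i j =>
    (sX i j).of_le (by norm_cast)
  have cQ : ∀ i j, ContDiffOn ℝ 1 (fun x => (X x + LM u x) i j) W := fun i j =>
    (cX i j).add (hLM i j).1
  have e1 := hlgj W (fun x => X x + LM u x) hW hpd cQ x hx e
  have e2 : fderiv ℝ (fun y => Real.log (X y + LM u y).det.re) x e =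
      fderiv ℝ u x e + fderiv ℝ g x e := by
    have e3 : (fun y => Real.log (X y + LM u y).det.re) =ᶠ[𝓝 x] fun y => u y + g y := by
      filter_upwards [hW.mem_nhds hx] with y hy
      exact heq y hy
    have d1 : DifferentiableAt ℝ u x :=
      (c2u.contDiffAt (hW.mem_nhds hx)).differentiableAt (by norm_num)
    have d2 : DifferentiableAt ℝ g x :=
      (sg.contDiffAt (hW.mem_nhds hx)).differentiableAt (by simp)
    rw [e3.fderiv_eq, fderiv_fun_add d1 d2]
    rfl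
  rw [e2] at e1
  rw [e1, Matrix.trace]
  simp only [Matrix.diag_apply, Matrix.mul_apply]
  rw [← Finset.sum_sub_distrib]
  refine Finset.sum_congr rfl fun i _ => ?_
  rw [← Finset.sum_sub_distrib]
  refine Finset.sum_congr rfl fun j _ => ?_
  obtain ⟨d3, e4⟩ := hdlm a W ha ha1.le hW u su h1 x hx e j i
  have d4 : DifferentiableAt ℝ (fun y => X y j i) x :=
    ((sX j i).contDiffAt (hW.mem_nhds hx)).differentiableAt (by simp)
  have e5 : fderiv ℝ (fun y => (X y + LM u y) j i) x e =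
      fderiv ℝ (fun y => X y j i) x e + LM (fun y => fderiv ℝ u y e) x j i := by
    have e6 : (fun y => (X y + LM u y) j i) = fun y => X y j i + LM u y j i := rfl
    rw [e6, fderiv_fun_add d4 d3, ← e4]
    rfl
  rw [e5]
  ring

end Pool.Agent.Helper97.AY
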